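import Pool.Agent.Y6.M.Stm

/-! Job EM-UNI: energy conservation and uniqueness for regular solutions of the abstract system
(complex amplitudes). Adapted from EK-UNI. -/

open Set Filter Topology
open scoped ComplexConjugate

set_option autoImplicit false

namespace Pool.Agent.Y154.EM.UNI

open Pool.Agent.Y6.M

section Tail

variable {I : Type}

/-- partial sums of a dominated family -/
lemma part_le {f b : I → ℝ} (hf : Summable f) (hb : Summable b) (h : ∀ i, |f i| ≤ b i)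
    (F : Finset I) : |∑ i ∈ F, f i - ∑' i, f i| ≤ ∑' i, b i - ∑ i ∈ F, b i := by
  have h1 : ∑ i ∈ F, (b i - f i) ≤ ∑' i, (b i - f i) :=
    (hb.sub hf).sum_le_tsum F (fun i _ => by have := (abs_le.1 (h i)).2; linarith)
  have h2 : ∑ i ∈ F, (b i + f i) ≤ ∑' i, (b i + f i) :=
    (hb.add hf).sum_le_tsum F (fun i _ => by have := (abs_le.1 (h i)).1; linarith)
  rw [Finset.sum_sub_distrib, hb.tsum_sub hf] at h1
  rw [Finset.sum_add_distrib, hb.tsum_add hf] at h2
  rw [abs_le]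
  constructor <;> linarith

end Tail

section Fixed

variable {I : Type} {bar : I → I} {c : I → I → I → ℂ} {N : I → ℝ} {C M : ℝ} {p q D : ℕ}

/-- bilinear form of the quadratic term -/
noncomputable def qd2 (c : I → I → I → ℂ) (y u : I → ℂ) (i : I) : ℂ :=
  ∑' p : I × I, c i p.1 p.2 * y p.1 * u p.2

/-- the standing assumptions -/
structure Hyp (bar : I → I) (c : I → I → I → ℂ) (N : I → ℝ) (C : ℝ) (p q D : ℕ) : Prop where
  C0 : 0 ≤ C
  one : ∀ i, 1 ≤ N i
  inv : ∀ i, bar (bar i) = i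
  size : ∀ i a b, ‖c i a b‖ ≤ C * N i ^ p
  summ : Summable (fun i => (N i ^ q)⁻¹)
  anti : ∀ i a b, c i a b = -conj (c b (bar a) i)
  deg : ∀ i a, ({b | c i a b ≠ 0}.Finite ∧ {b | c i a b ≠ 0}.ncard ≤ D) ∧
    {b | c i b a ≠ 0}.Finite ∧ {b | c i b a ≠ 0}.ncard ≤ D

/-- decay -/
def Dec (N : I → ℝ) (p q : ℕ) (M : ℝ) (x : I → ℂ) : Prop := ∀ i, N i ^ (p + q) * ‖x i‖ ≤ M

/-- reality -/
def Rl (bar : I → I) (x : I → ℂ) : Prop := ∀ i, x (bar i) = conj (x i)

variable (H : Hyp bar c N C p q D)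

include H

lemma Npos (i : I) : 0 < N i := lt_of_lt_of_le one_pos (H.one i)

lemma s_pos (i : I) : 0 < (N i ^ q)⁻¹ := inv_pos.2 (pow_pos (Npos H i) _)

lemma Nx {x : I → ℂ} (hx : Dec N p q M x) (i : I) : N i ^ p * ‖x i‖ ≤ M * (N i ^ q)⁻¹ := by
  have h := hx i
  have h2 : 0 < N i ^ q := pow_pos (Npos H i) _
  rw [← div_eq_mul_inv, le_div_iff₀ h2]
  calc N i ^ p * ‖x i‖ * N i ^ q = N i ^ (p + q) * ‖x i‖ := by rw [pow_add]; ring
    _ ≤ M := h

lemma xs {x : I → ℂ} (hx : Dec N p q M x) (i : I) : ‖x i‖ ≤ M * (N i ^ q)⁻¹ := by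
  refine le_trans ?_ (Nx H hx i)
  have : 1 ≤ N i ^ p := one_le_pow₀ (H.one i)
  nlinarith [norm_nonneg (x i)]

lemma x_summ {x : I → ℂ} (hx : Dec N p q M x) : Summable (fun i => ‖x i‖) :=
  Summable.of_nonneg_of_le (fun _ => norm_nonneg _) (xs H hx) (H.summ.mul_left M)

lemma M_nonneg {x : I → ℂ} (hx : Dec N p q M x) (i : I) : 0 ≤ M :=
  le_trans (mul_nonneg (pow_nonneg (Npos H i).le _) (norm_nonneg _)) (hx i)

lemma x_le {x : I → ℂ} (hx : Dec N p q M x) (i : I) : ‖x i‖ ≤ M := by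
  refine le_trans ?_ (hx i)
  have : 1 ≤ N i ^ (p + q) := one_le_pow₀ (H.one i)
  nlinarith [norm_nonneg (x i)]

lemma sq_summ {x : I → ℂ} (hx : Dec N p q M x) : Summable (fun i => ‖x i‖ ^ 2) := by
  have h1 := x_summ H hx
  have h2 : Summable (fun i => M * ‖x i‖) := h1.mul_left M
  refine Summable.of_nonneg_of_le (fun i => sq_nonneg _) (fun i => ?_) h2
  have h3 : ‖x i‖ ≤ M := x_le H hx i
  rw [sq]
  exact mul_le_mul_of_nonneg_right h3 (norm_nonneg _)

lemma pair_summ {x y : I → ℂ} {M M' : ℝ} (hx : Dec N p q M x) (hy : Dec N p q M' y) :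
    Summable (fun t : I × I => ‖x t.1‖ * ‖y t.2‖) :=
  (x_summ H hx).mul_of_nonneg (x_summ H hy) (fun _ => norm_nonneg _) (fun _ => norm_nonneg _)

lemma term_le (i : I) (y u : I → ℂ) (t : I × I) :
    ‖c i t.1 t.2 * y t.1 * u t.2‖ ≤ C * N i ^ p * (‖y t.1‖ * ‖u t.2‖) := by
  rw [norm_mul, norm_mul, mul_assoc]
  exact mul_le_mul_of_nonneg_right (H.size i t.1 t.2) (by positivity)

lemma qd2_summ {y u : I → ℂ} {M M' : ℝ} (hy : Dec N p q M y) (hu : Dec N p q M' u) (i : I) :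
    Summable (fun t : I × I => c i t.1 t.2 * y t.1 * u t.2) :=
  Summable.of_norm_bounded ((pair_summ H hy hu).mul_left (C * N i ^ p))
    (fun t => term_le H i y u t)

lemma sum_abs_le {x : I → ℂ} (hx : Dec N p q M x) :
    ∑' i, ‖x i‖ ≤ M * ∑' i, (N i ^ q)⁻¹ := by
  rw [← tsum_mul_left]
  exact (x_summ H hx).tsum_le_tsum (xs H hx) (H.summ.mul_left M)

lemma qd2_le {y u : I → ℂ} {M M' : ℝ} (hy : Dec N p q M y) (hu : Dec N p q M' u) (i : I) :
    ‖qd2 c y u i‖ ≤ C * N i ^ p * ((∑' a, ‖y a‖) * ∑' b, ‖u b‖) := by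
  have h1 : (∑' a, ‖y a‖) * ∑' b, ‖u b‖ = ∑' t : I × I, ‖y t.1‖ * ‖u t.2‖ :=
    (x_summ H hy).tsum_mul_tsum (x_summ H hu) (pair_summ H hy hu)
  rw [h1, ← tsum_mul_left, qd2]
  exact tsum_of_norm_bounded (((pair_summ H hy hu).mul_left _).hasSum)
    (fun t => term_le H i y u t)

/-- the triple sums -/
lemma trip_summ {x y u : I → ℂ} {M M' M'' : ℝ} (hx : Dec N p q M x) (hy : Dec N p q M' y)
    (hu : Dec N p q M'' u) :
    Summable (fun t : I × (I × I) => conj (x t.1) * (c t.1 t.2.1 t.2.2 * y t.2.1 * u t.2.2)) := by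
  have h0 : Summable (fun i => N i ^ p * ‖x i‖) :=
    Summable.of_nonneg_of_le (fun i => mul_nonneg (pow_nonneg (Npos H i).le _) (norm_nonneg _))
      (Nx H hx) (H.summ.mul_left M)
  have h1 : Summable (fun t : I × (I × I) => (N t.1 ^ p * ‖x t.1‖) * (‖y t.2.1‖ * ‖u t.2.2‖)) :=
    h0.mul_of_nonneg (pair_summ H hy hu)
      (fun i => mul_nonneg (pow_nonneg (Npos H i).le _) (norm_nonneg _))
      (fun t => mul_nonneg (norm_nonneg _) (norm_nonneg _))
  refine Summable.of_norm_bounded (h1.mul_left C) (fun t => ?_)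
  rw [norm_mul, RCLike.norm_conj]
  have := mul_le_mul_of_nonneg_left (term_le H t.1 y u t.2) (norm_nonneg (x t.1))
  calc _ ≤ _ := this
    _ = _ := by ring

lemma trip_eq {x y u : I → ℂ} {M M' M'' : ℝ} (hx : Dec N p q M x) (hy : Dec N p q M' y)
    (hu : Dec N p q M'' u) :
    ∑' i, conj (x i) * qd2 c y u i
      = ∑' t : I × (I × I), conj (x t.1) * (c t.1 t.2.1 t.2.2 * y t.2.1 * u t.2.2) := by
  rw [(trip_summ H hx hy hu).tsum_prod]
  congr 1
  ext i
  rw [qd2, ← tsum_mul_left]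

omit H in
/-- exchange of the first and the last index -/
def exch (bar : I → I) (h : ∀ i, bar (bar i) = i) : I × (I × I) ≃ I × (I × I) where
  toFun t := (t.2.2, (bar t.2.1, t.1))
  invFun t := (t.2.2, (bar t.2.1, t.1))
  left_inv t := by simp [h]
  right_inv t := by simp [h]

lemma exch_eq {x y u : I → ℂ} {M M' M'' : ℝ} (hx : Dec N p q M x) (hy : Dec N p q M' y)
    (hu : Dec N p q M'' u) (hr : Rl bar y) :
    ∑' i, conj (x i) * qd2 c y u i = - conj (∑' i, conj (u i) * qd2 c y x i) := by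
  rw [trip_eq H hx hy hu, trip_eq H hu hy hx, Complex.conj_tsum, ← tsum_neg]
  refine ((exch bar H.inv).tsum_eq (fun t : I × (I × I) =>
    conj (x t.1) * (c t.1 t.2.1 t.2.2 * y t.2.1 * u t.2.2))).symm.trans (tsum_congr fun t => ?_)
  simp only [exch, Equiv.coe_fn_mk, map_mul, Complex.conj_conj]
  rw [H.anti t.2.2 (bar t.2.1) t.1, H.inv, hr]
  ring

lemma anti_zero {x y : I → ℂ} {M M' : ℝ} (hx : Dec N p q M x) (hy : Dec N p q M' y)
    (hr : Rl bar y) : (∑' i, conj (x i) * qd2 c y x i).re = 0 := by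
  have h := congrArg Complex.re (exch_eq H hx hy hx hr)
  rw [Complex.neg_re, Complex.conj_re] at h
  linarith

lemma xq_le {x y u : I → ℂ} {M M' M'' : ℝ} (hx : Dec N p q M x) (hy : Dec N p q M' y)
    (hu : Dec N p q M'' u) (i : I) :
    ‖conj (x i) * qd2 c y u i‖ ≤ C * M * ((∑' a, ‖y a‖) * ∑' b, ‖u b‖) * (N i ^ q)⁻¹ := by
  rw [norm_mul, RCLike.norm_conj]
  have h1 := mul_le_mul_of_nonneg_left (qd2_le H hy hu i) (norm_nonneg (x i))
  have h2 : 0 ≤ (∑' a, ‖y a‖) * ∑' b, ‖u b‖ :=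
    mul_nonneg (tsum_nonneg fun _ => norm_nonneg _) (tsum_nonneg fun _ => norm_nonneg _)
  have h3 := mul_le_mul_of_nonneg_right (Nx H hx i) (mul_nonneg H.C0 h2)
  calc _ ≤ _ := h1
    _ = N i ^ p * ‖x i‖ * (C * ((∑' a, ‖y a‖) * ∑' b, ‖u b‖)) := by ring
    _ ≤ _ := h3
    _ = _ := by ring

lemma xq_summ {x y u : I → ℂ} {M M' M'' : ℝ} (hx : Dec N p q M x) (hy : Dec N p q M' y)
    (hu : Dec N p q M'' u) : Summable (fun i => conj (x i) * qd2 c y u i) :=
  Summable.of_norm_bounded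
    (H.summ.mul_left (C * M * ((∑' a, ‖y a‖) * ∑' b, ‖u b‖))) (fun i => xq_le H hx hy hu i)

/-- Schur's bound, one half -/
lemma half {w : I → ℝ} (hw : Summable (fun i => w i ^ 2)) (i : I) :
    Summable (fun t : I × I => open Classical in if c i t.1 t.2 ≠ 0 then w t.1 ^ 2 else 0) ∧
      ∑' t : I × I, (open Classical in if c i t.1 t.2 ≠ 0 then w t.1 ^ 2 else 0)
        ≤ D * ∑' a, w a ^ 2 := by
  classical
  have hfin : ∀ a, {b | c i a b ≠ 0}.Finite := fun a => ((H.deg i a).1).1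
  have hs : ∀ a, HasSum (fun b => if c i a b ≠ 0 then w a ^ 2 else 0)
      (({b | c i a b ≠ 0}.ncard : ℝ) * w a ^ 2) := by
    intro a
    have h1 : HasSum (fun b => if c i a b ≠ 0 then w a ^ 2 else 0)
        (∑ b ∈ (hfin a).toFinset, if c i a b ≠ 0 then w a ^ 2 else 0) := by
      apply hasSum_sum_of_ne_finset_zero
      intro b hb
      have : ¬ (c i a b ≠ 0) := by
        intro h
        exact hb (by simpa using h)
      rw [if_neg this]
    have h2 : (∑ b ∈ (hfin a).toFinset, if c i a b ≠ 0 then w a ^ 2 else 0)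
        = (({b | c i a b ≠ 0}.ncard : ℝ) * w a ^ 2) := by
      rw [Finset.sum_congr rfl (g := fun _ => w a ^ 2) (fun b hb => by
        rw [if_pos]; simpa using hb), Finset.sum_const, nsmul_eq_mul,
        Set.ncard_eq_toFinset_card _ (hfin a)]
    rw [h2] at h1
    exact h1
  have hle : ∀ a, (({b | c i a b ≠ 0}.ncard : ℝ) * w a ^ 2) ≤ D * w a ^ 2 := fun a =>
    mul_le_mul_of_nonneg_right (by exact_mod_cast ((H.deg i a).1).2) (sq_nonneg _)
  have hsa : Summable (fun a => (({b | c i a b ≠ 0}.ncard : ℝ) * w a ^ 2)) :=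
    Summable.of_nonneg_of_le (fun a => by positivity) hle (hw.mul_left _)
  have hsum : Summable (fun t : I × I => if c i t.1 t.2 ≠ 0 then w t.1 ^ 2 else 0) := by
    rw [summable_prod_of_nonneg (fun t => by
      show (0 : ℝ) ≤ _
      split_ifs <;> positivity)]
    refine ⟨fun a => (hs a).summable, ?_⟩
    refine hsa.congr (fun a => ?_)
    exact ((hs a).tsum_eq).symm
  refine ⟨hsum, ?_⟩
  rw [hsum.tsum_prod]
  rw [tsum_congr (fun a => (hs a).tsum_eq), ← tsum_mul_left]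
  exact hsa.tsum_le_tsum hle (hw.mul_left _)

/-- Schur's bound, the other half -/
lemma half' {w : I → ℝ} (hw : Summable (fun i => w i ^ 2)) (i : I) :
    Summable (fun t : I × I => open Classical in if c i t.1 t.2 ≠ 0 then w t.2 ^ 2 else 0) ∧
      ∑' t : I × I, (open Classical in if c i t.1 t.2 ≠ 0 then w t.2 ^ 2 else 0)
        ≤ D * ∑' a, w a ^ 2 := by
  classical
  have hfin : ∀ a, {b | c i b a ≠ 0}.Finite := fun a => ((H.deg i a).2).1
  have hs : ∀ a, HasSum (fun b => if c i b a ≠ 0 then w a ^ 2 else 0)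
      (({b | c i b a ≠ 0}.ncard : ℝ) * w a ^ 2) := by
    intro a
    have h1 : HasSum (fun b => if c i b a ≠ 0 then w a ^ 2 else 0)
        (∑ b ∈ (hfin a).toFinset, if c i b a ≠ 0 then w a ^ 2 else 0) := by
      apply hasSum_sum_of_ne_finset_zero
      intro b hb
      have : ¬ (c i b a ≠ 0) := by
        intro h
        exact hb (by simpa using h)
      rw [if_neg this]
    have h2 : (∑ b ∈ (hfin a).toFinset, if c i b a ≠ 0 then w a ^ 2 else 0)
        = (({b | c i b a ≠ 0}.ncard : ℝ) * w a ^ 2) := by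
      rw [Finset.sum_congr rfl (g := fun _ => w a ^ 2) (fun b hb => by
        rw [if_pos]; simpa using hb), Finset.sum_const, nsmul_eq_mul,
        Set.ncard_eq_toFinset_card _ (hfin a)]
    rw [h2] at h1
    exact h1
  have hle : ∀ a, (({b | c i b a ≠ 0}.ncard : ℝ) * w a ^ 2) ≤ D * w a ^ 2 := fun a =>
    mul_le_mul_of_nonneg_right (by exact_mod_cast ((H.deg i a).2).2) (sq_nonneg _)
  have hsa : Summable (fun a => (({b | c i b a ≠ 0}.ncard : ℝ) * w a ^ 2)) :=
    Summable.of_nonneg_of_le (fun a => by positivity) hle (hw.mul_left _)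
  have hsum0 : Summable (fun t : I × I => if c i t.2 t.1 ≠ 0 then w t.1 ^ 2 else 0) := by
    rw [summable_prod_of_nonneg (fun t => by
      show (0 : ℝ) ≤ _
      split_ifs <;> positivity)]
    refine ⟨fun a => (hs a).summable, ?_⟩
    refine hsa.congr (fun a => ?_)
    exact ((hs a).tsum_eq).symm
  have hsum : Summable (fun t : I × I => if c i t.1 t.2 ≠ 0 then w t.2 ^ 2 else 0) :=
    ((Equiv.prodComm I I).summable_iff (f := fun t : I × I =>
      if c i t.2 t.1 ≠ 0 then w t.1 ^ 2 else 0)).2 hsum0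
  refine ⟨hsum, ?_⟩
  have he : ∑' t : I × I, (if c i t.1 t.2 ≠ 0 then w t.2 ^ 2 else 0)
      = ∑' t : I × I, (if c i t.2 t.1 ≠ 0 then w t.1 ^ 2 else 0) :=
    (Equiv.prodComm I I).tsum_eq (fun t : I × I => if c i t.2 t.1 ≠ 0 then w t.1 ^ 2 else 0)
  rw [he, hsum0.tsum_prod]
  rw [tsum_congr (fun a => (hs a).tsum_eq), ← tsum_mul_left]
  exact hsa.tsum_le_tsum hle (hw.mul_left _)

/-- Schur's bound -/
lemma schur {w : I → ℂ} (hw : Summable (fun i => ‖w i‖ ^ 2)) (i : I) :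
    ‖qd2 c w w i‖ ≤ C * N i ^ p * (D * ∑' a, ‖w a‖ ^ 2) := by
  classical
  obtain ⟨h1, h2⟩ := half H (w := fun a => ‖w a‖) hw i
  obtain ⟨h3, h4⟩ := half' H (w := fun a => ‖w a‖) hw i
  have hC : 0 ≤ C * N i ^ p := mul_nonneg H.C0 (pow_nonneg (Npos H i).le _)
  have h5 := ((h1.add h3).mul_left (C * N i ^ p / 2))
  have h6 : ‖qd2 c w w i‖ ≤ ∑' t : I × I, C * N i ^ p / 2 *
      ((if c i t.1 t.2 ≠ 0 then ‖w t.1‖ ^ 2 else 0) +
        if c i t.1 t.2 ≠ 0 then ‖w t.2‖ ^ 2 else 0) := by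
    refine tsum_of_norm_bounded h5.hasSum (fun t => ?_)
    by_cases h : c i t.1 t.2 = 0
    · simp [h]
    · rw [if_pos h, if_pos h, norm_mul, norm_mul, mul_assoc]
      have h7 := H.size i t.1 t.2
      have h8 : ‖w t.1‖ * ‖w t.2‖ ≤ (‖w t.1‖ ^ 2 + ‖w t.2‖ ^ 2) / 2 := by
        nlinarith [sq_nonneg (‖w t.1‖ - ‖w t.2‖)]
      calc ‖c i t.1 t.2‖ * (‖w t.1‖ * ‖w t.2‖)
          ≤ (C * N i ^ p) * ((‖w t.1‖ ^ 2 + ‖w t.2‖ ^ 2) / 2) := by
            apply mul_le_mul h7 h8 (by positivity) hC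
        _ = _ := by ring
  rw [tsum_mul_left, h1.tsum_add h3] at h6
  refine h6.trans ?_
  calc C * N i ^ p / 2 * (_ + _) ≤ C * N i ^ p / 2 *
        (D * ∑' a, ‖w a‖ ^ 2 + D * ∑' a, ‖w a‖ ^ 2) :=
        mul_le_mul_of_nonneg_left (add_le_add h2 h4) (by positivity)
    _ = _ := by ring

lemma dec_sub {z z' : I → ℂ} {M : ℝ} (hz : Dec N p q M z) (hz' : Dec N p q M z') :
    Dec N p q (M + M) (fun i => z i - z' i) := by
  intro i
  have h1 := hz i
  have h2 := hz' i
  have h3 : ‖z i - z' i‖ ≤ ‖z i‖ + ‖z' i‖ := norm_sub_le _ _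
  have h4 : 0 ≤ N i ^ (p + q) := pow_nonneg (Npos H i).le _
  show N i ^ (p + q) * ‖z i - z' i‖ ≤ M + M
  nlinarith

/-- the full sum for the difference of two solutions -/
lemma diff_le {z z' : I → ℂ} {M : ℝ} (hz : Dec N p q M z) (hz' : Dec N p q M z')
    (hr : Rl bar z) (hr' : Rl bar z') :
    |(∑' i, conj (z i - z' i) * (qd c z i - qd c z' i)).re|
      ≤ C * D * M * (∑' i, (N i ^ q)⁻¹) * ∑' i, ‖z i - z' i‖ ^ 2 := by
  have hw := dec_sub H hz hz'
  have hrw : Rl bar (fun i => z i - z' i) := by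
    intro i
    show z (bar i) - z' (bar i) = conj (z i - z' i)
    rw [hr i, hr' i, map_sub]
  have hq : ∀ i, qd c z i - qd c z' i
      = qd2 c (fun a => z a - z' a) z i + qd2 c z' (fun a => z a - z' a) i := by
    intro i
    have e1 : qd c z i = qd2 c z z i := rfl
    have e2 : qd c z' i = qd2 c z' z' i := rfl
    rw [e1, e2, qd2, qd2, qd2, qd2, ← (qd2_summ H hz hz i).tsum_sub (qd2_summ H hz' hz' i),
      ← (qd2_summ H hw hz i).tsum_add (qd2_summ H hz' hw i)]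
    congr 1
    ext t
    ring
  have h1 : (∑' i, conj (z i - z' i) * (qd c z i - qd c z' i)).re
      = - (∑' i, conj (z i) * qd2 c (fun a => z a - z' a) (fun a => z a - z' a) i).re := by
    have e : (fun i => conj (z i - z' i) * (qd c z i - qd c z' i)) = fun i =>
        conj ((fun a => z a - z' a) i) * qd2 c (fun a => z a - z' a) z i
          + conj ((fun a => z a - z' a) i) * qd2 c z' (fun a => z a - z' a) i := by
      ext i
      rw [hq i]
      ring
    rw [e, (xq_summ H hw hw hz).tsum_add (xq_summ H hw hz' hw), Complex.add_re,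
      anti_zero H hw hz' hr', add_zero, exch_eq H hw hw hz hrw, Complex.neg_re, Complex.conj_re]
  rw [h1, abs_neg]
  have hE : Summable (fun i => ‖z i - z' i‖ ^ 2) := sq_summ H hw
  have hE0 : 0 ≤ ∑' i, ‖z i - z' i‖ ^ 2 := tsum_nonneg fun _ => sq_nonneg _
  have h2 : ∀ i, ‖conj (z i) * qd2 c (fun a => z a - z' a) (fun a => z a - z' a) i‖
      ≤ C * D * M * (∑' i, ‖z i - z' i‖ ^ 2) * (N i ^ q)⁻¹ := by
    intro i
    rw [norm_mul, RCLike.norm_conj]
    have h3 := mul_le_mul_of_nonneg_left (schur H hE i) (norm_nonneg (z i))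
    have h4 : 0 ≤ C * (D * ∑' i, ‖z i - z' i‖ ^ 2) :=
      mul_nonneg H.C0 (mul_nonneg (Nat.cast_nonneg _) hE0)
    have h5 := mul_le_mul_of_nonneg_right (Nx H hz i) h4
    calc _ ≤ _ := h3
      _ = N i ^ p * ‖z i‖ * (C * (D * ∑' i, ‖z i - z' i‖ ^ 2)) := by ring
      _ ≤ _ := h5
      _ = _ := by ring
  refine (Complex.abs_re_le_norm _).trans ?_
  refine (tsum_of_norm_bounded ((H.summ.mul_left _).hasSum) h2).trans (le_of_eq ?_)
  rw [tsum_mul_left]
  ring

/-- bound of the terms -/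
lemma dterm_le {z z' : I → ℂ} {M : ℝ} (hz : Dec N p q M z) (hz' : Dec N p q M z') (i : I) :
    ‖conj (z i - z' i) * (qd c z i - qd c z' i)‖
      ≤ 4 * C * M ^ 3 * (∑' i, (N i ^ q)⁻¹) ^ 2 * (N i ^ q)⁻¹ := by
  have hM : 0 ≤ M := M_nonneg H hz i
  have hS : 0 ≤ ∑' i, (N i ^ q)⁻¹ := tsum_nonneg fun i => (s_pos H i).le
  have key : ∀ {u v : I → ℂ}, Dec N p q M u → Dec N p q M v →
      ‖conj (u i) * qd2 c v v i‖ ≤ C * M ^ 3 * (∑' i, (N i ^ q)⁻¹) ^ 2 * (N i ^ q)⁻¹ := by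
    intro u v hu hv
    refine (xq_le H hu hv hv i).trans ?_
    have h1 := sum_abs_le H hv
    have h2 : 0 ≤ ∑' a, ‖v a‖ := tsum_nonneg fun _ => norm_nonneg _
    have h3 : (∑' a, ‖v a‖) * (∑' a, ‖v a‖) ≤
        (M * ∑' i, (N i ^ q)⁻¹) * (M * ∑' i, (N i ^ q)⁻¹) := mul_le_mul h1 h1 h2 (by positivity)
    have h4 := mul_le_mul_of_nonneg_left h3 (mul_nonneg H.C0 hM)
    have h5 := mul_le_mul_of_nonneg_right h4 (s_pos H i).le
    calc _ ≤ _ := h5
      _ = _ := by ring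
  have k1 := key hz hz
  have k2 := key hz hz'
  have k3 := key hz' hz
  have k4 := key hz' hz'
  have e : conj (z i - z' i) * (qd c z i - qd c z' i) =
      (conj (z i) * qd2 c z z i - conj (z i) * qd2 c z' z' i)
      - (conj (z' i) * qd2 c z z i - conj (z' i) * qd2 c z' z' i) := by
    show conj (z i - z' i) * (qd2 c z z i - qd2 c z' z' i) = _
    rw [map_sub]
    ring
  rw [e]
  have t1 := norm_sub_le (conj (z i) * qd2 c z z i - conj (z i) * qd2 c z' z' i)
    (conj (z' i) * qd2 c z z i - conj (z' i) * qd2 c z' z' i)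
  have t2 := norm_sub_le (conj (z i) * qd2 c z z i) (conj (z i) * qd2 c z' z' i)
  have t3 := norm_sub_le (conj (z' i) * qd2 c z z i) (conj (z' i) * qd2 c z' z' i)
  linarith

lemma dterm_summ {z z' : I → ℂ} {M : ℝ} (hz : Dec N p q M z) (hz' : Dec N p q M z') :
    Summable (fun i => conj (z i - z' i) * (qd c z i - qd c z' i)) :=
  Summable.of_norm_bounded
    (H.summ.mul_left (4 * C * M ^ 3 * (∑' i, (N i ^ q)⁻¹) ^ 2)) (fun i => dterm_le H hz hz' i)

lemma w_sq_le {z z' : I → ℂ} {M : ℝ}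
    (hz : Dec N p q M z) (hz' : Dec N p q M z') (i : I) :
    ‖z i - z' i‖ ^ 2 ≤ 4 * M ^ 2 * (N i ^ q)⁻¹ := by
  have hM : 0 ≤ M := M_nonneg H hz i
  have h1 := xs H hz i
  have h2 := xs H hz' i
  have h4 := x_le H hz i
  have h5 := x_le H hz' i
  have h6 : ‖z i - z' i‖ ≤ ‖z i‖ + ‖z' i‖ := norm_sub_le _ _
  have h7 : 0 < (N i ^ q)⁻¹ := s_pos H i
  have h8 : ‖z i - z' i‖ ≤ 2 * M := by linarith
  have h9 : ‖z i - z' i‖ ≤ 2 * (M * (N i ^ q)⁻¹) := by linarith
  calc ‖z i - z' i‖ ^ 2 = ‖z i - z' i‖ * ‖z i - z' i‖ := by rw [sq]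
    _ ≤ (2 * M) * (2 * (M * (N i ^ q)⁻¹)) := mul_le_mul h8 h9 (norm_nonneg _) (by positivity)
    _ = _ := by ring

end Fixed

section Time

variable {I : Type} {lv : I → ℕ} {bar : I → I} {σ : I → ℝ} {c : I → I → I → ℂ}
  {S α : ℕ → ℝ} {N : I → ℝ} {T : ℝ}

/-- the modes of the levels `≤ P` -/
noncomputable def FP (hK : Ker lv bar σ c) (P : ℕ) : Finset I := (hK.fin P).toFinset

lemma mem_FP (hK : Ker lv bar σ c) (P : ℕ) (i : I) : i ∈ FP hK P ↔ lv i ≤ P := by
  simp [FP]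

lemma FP_tendsto (hK : Ker lv bar σ c) : Tendsto (FP hK) atTop atTop := by
  apply tendsto_atTop_finset_of_monotone
  · intro P Q h i hi
    rw [mem_FP] at hi ⊢
    exact hi.trans h
  · intro i
    exact ⟨lv i, (mem_FP hK _ i).2 le_rfl⟩

/-- the skew term does not contribute -/
lemma skew_zero (r : ℝ) (w : ℂ) : (conj w * (Complex.I * (r : ℂ) * w)).re = 0 := by
  simp only [Complex.mul_re, Complex.mul_im, Complex.I_re, Complex.I_im, Complex.ofReal_re,
    Complex.ofReal_im, Complex.conj_re, Complex.conj_im]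
  ring

lemma deriv_FP (hK : Ker lv bar σ c) {z z' : I → ℝ → ℂ} (hz : KSol S lv bar σ c N T z)
    (hz' : KSol S lv bar σ c N T z') (P : ℕ) (t : ℝ) (ht : t ∈ Ico 0 T) :
    HasDerivWithinAt (fun r => ∑ i ∈ FP hK P, ‖z i r - z' i r‖ ^ 2)
      (2 * ∑ i ∈ FP hK P, (conj (z i t - z' i t) *
        (qd c (fun a => z a t) i - qd c (fun a => z' a t) i)).re) (Ico 0 T) t := by
  rw [Finset.mul_sum]
  refine HasDerivWithinAt.fun_sum (fun i _ => ?_)
  have h1 := ((hz.deriv i t ht).sub (hz'.deriv i t ht)).norm_sq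
  rw [Complex.inner] at h1
  have h2 : ((Kz S lv σ (fun a => z a t) i + qd c (fun a => z a t) i -
      (Kz S lv σ (fun a => z' a t) i + qd c (fun a => z' a t) i)) * conj ((z i - z' i) t)).re =
      (conj (z i t - z' i t) * (qd c (fun a => z a t) i - qd c (fun a => z' a t) i)).re := by
    have h3 := skew_zero (S (lv i) * σ i) (z i t - z' i t)
    have h4 : (Kz S lv σ (fun a => z a t) i + qd c (fun a => z a t) i -
      (Kz S lv σ (fun a => z' a t) i + qd c (fun a => z' a t) i)) * conj ((z i - z' i) t) =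
      conj (z i t - z' i t) * (Complex.I * ((S (lv i) * σ i : ℝ) : ℂ) * (z i t - z' i t)) +
      conj (z i t - z' i t) * (qd c (fun a => z a t) i - qd c (fun a => z' a t) i) := by
      simp only [Kz, Pi.sub_apply]
      ring
    rw [h4, Complex.add_re, h3, zero_add]
  rw [h2] at h1
  exact h1

/-- the zero solution -/
lemma zero_sol : KSol S lv bar σ c N T (fun _ _ => 0) := by
  refine ⟨fun i t _ => by simp, fun i t _ => ?_, fun k T' _ => ⟨0, fun t _ i => by simp⟩⟩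
  have h1 : Kz S lv σ (fun _ => (0 : ℂ)) i = 0 := by
    simp [Kz]
  have h2 : qd c (fun _ => (0 : ℂ)) i = 0 := by
    simp [qd]
  rw [h1, h2, add_zero]
  exact hasDerivWithinAt_const _ _ _

/-- the standing assumptions follow -/
lemma hyp (hK : Ker lv bar σ c) (hW : Wt lv σ α c N) :
    ∃ (C : ℝ) (p q D : ℕ), Hyp bar c N C p q D := by
  obtain ⟨C, p, h1⟩ := hW.size
  obtain ⟨q, h2⟩ := hW.summ
  obtain ⟨D, h3⟩ := hK.deg
  refine ⟨|C|, p, q, D, abs_nonneg _, hW.one, hK.inv, ?_, h2, hK.anti, h3⟩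
  intro i a b
  refine (h1 i a b).trans ?_
  exact mul_le_mul_of_nonneg_right (le_abs_self C)
    (pow_nonneg (le_trans zero_le_one (hW.one i)) _)

/-- the common estimate -/
lemma main_est (hK : Ker lv bar σ c) {C : ℝ} {p q D : ℕ} (H : Hyp bar c N C p q D)
    {z z' : I → ℝ → ℂ} (hz : KSol S lv bar σ c N T z) (hz' : KSol S lv bar σ c N T z')
    (L T' M : ℝ) (hT : T' < T) (hT0 : 0 ≤ T') (hL0 : 0 ≤ L)
    (hd : ∀ t ∈ Icc 0 T', Dec N p q M (fun a => z a t) ∧ Dec N p q M (fun a => z' a t))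
    (hL : ∀ t ∈ Icc 0 T', |(∑' i, conj (z i t - z' i t) *
        (qd c (fun a => z a t) i - qd c (fun a => z' a t) i)).re|
      ≤ L * ∑' i, ‖z i t - z' i t‖ ^ 2)
    (hLe : ∀ P, L * ∑ i ∈ FP hK P, ‖z i 0 - z' i 0‖ ^ 2 = 0) :
    ∑' i, ‖z i T' - z' i T'‖ ^ 2 = ∑' i, ‖z i 0 - z' i 0‖ ^ 2 := by
  have hs := H.summ
  obtain ⟨K1, hK1⟩ : ∃ K1, K1 = 4 * C * M ^ 3 * (∑' i, (N i ^ q)⁻¹) ^ 2 := ⟨_, rfl⟩
  have hb : Summable (fun i => K1 * (N i ^ q)⁻¹) := hs.mul_left K1
  have hdl : Summable (fun i => 4 * M ^ 2 * (N i ^ q)⁻¹) := hs.mul_left (4 * M ^ 2)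
  let eps : ℕ → ℝ := fun P => ∑' i, K1 * (N i ^ q)⁻¹ - ∑ i ∈ FP hK P, K1 * (N i ^ q)⁻¹
  let del : ℕ → ℝ := fun P =>
    ∑' i, 4 * M ^ 2 * (N i ^ q)⁻¹ - ∑ i ∈ FP hK P, 4 * M ^ 2 * (N i ^ q)⁻¹
  have heps : Tendsto eps atTop (𝓝 0) := by
    have h1 := (hb.hasSum.comp (FP_tendsto hK)).const_sub (∑' i, K1 * (N i ^ q)⁻¹)
    rw [sub_self] at h1
    exact h1
  have hdel : Tendsto del atTop (𝓝 0) := by
    have h1 := (hdl.hasSum.comp (FP_tendsto hK)).const_sub (∑' i, 4 * M ^ 2 * (N i ^ q)⁻¹)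
    rw [sub_self] at h1
    exact h1
  let f : ℕ → ℝ → ℝ := fun P t => ∑ i ∈ FP hK P, ‖z i t - z' i t‖ ^ 2 -
    ∑ i ∈ FP hK P, ‖z i 0 - z' i 0‖ ^ 2
  let f' : ℕ → ℝ → ℝ := fun P t => 2 * ∑ i ∈ FP hK P, (conj (z i t - z' i t) *
        (qd c (fun a => z a t) i - qd c (fun a => z' a t) i)).re
  have hder : ∀ P, ∀ t ∈ Ico 0 T, HasDerivWithinAt (f P) (f' P t) (Ico 0 T) t := fun P t ht =>
    (deriv_FP hK hz hz' P t ht).sub_const _
  have hsub : Icc 0 T' ⊆ Ico 0 T := fun t ht => ⟨ht.1, lt_of_le_of_lt ht.2 hT⟩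
  have key : ∀ P, ‖f P T'‖ ≤ gronwallBound 0 (2 * L) (2 * L * del P + 2 * eps P) T' := by
    intro P
    have h1 := norm_le_gronwallBound_of_norm_deriv_right_le (f := f P) (f' := f' P) (δ := 0)
      (K := 2 * L) (ε := 2 * L * del P + 2 * eps P) (a := 0) (b := T')
      (fun t ht => ((hder P t (hsub ht)).continuousWithinAt).mono hsub)
      (fun t ht => by
        refine (hder P t (hsub ⟨ht.1, ht.2.le⟩)).mono_of_mem_nhdsWithin ?_
        have : Ico 0 T ∈ 𝓝[≥] t := by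
          refine mem_of_superset (Ico_mem_nhdsGE (ht.2.trans hT)) ?_
          exact Ico_subset_Ico_left ht.1
        exact this)
      (by simp only [f]; simp)
      (fun t ht => by
        have htt : t ∈ Icc 0 T' := ⟨ht.1, ht.2.le⟩
        obtain ⟨d1, d2⟩ := hd t htt
        have s1 := dterm_summ H d1 d2
        have e1 := part_le (Complex.hasSum_re s1.hasSum).summable hb
          (fun i => by
            rw [hK1]
            exact (Complex.abs_re_le_norm _).trans (dterm_le H d1 d2 i)) (FP hK P)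
        rw [(Complex.hasSum_re s1.hasSum).tsum_eq] at e1
        have hsq : Summable (fun i => ‖z i t - z' i t‖ ^ 2) :=
          Summable.of_nonneg_of_le (fun i => sq_nonneg _) (w_sq_le H d1 d2) hdl
        have e2 := part_le hsq hdl
          (fun i => by rw [abs_of_nonneg (sq_nonneg _)]; exact w_sq_le H d1 d2 i) (FP hK P)
        have e3 := hL t htt
        have e4 : ∑' i, ‖z i t - z' i t‖ ^ 2 ≤
            f P t + ∑ i ∈ FP hK P, ‖z i 0 - z' i 0‖ ^ 2 + del P := by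
          have := (abs_le.1 e2).1
          simp only [f, del]
          linarith
        have e5 : L * ∑' i, ‖z i t - z' i t‖ ^ 2 ≤ L * ‖f P t‖ + L * del P := by
          have h5 := mul_le_mul_of_nonneg_left e4 hL0
          have h6 := mul_le_mul_of_nonneg_left (le_abs_self (f P t)) hL0
          have h7 := hLe P
          rw [Real.norm_eq_abs]
          nlinarith
        have e6 : |∑ i ∈ FP hK P, (conj (z i t - z' i t) *
            (qd c (fun a => z a t) i - qd c (fun a => z' a t) i)).re| ≤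
            L * ‖f P t‖ + L * del P + eps P := by
          have h7 := abs_sub_abs_le_abs_sub (∑ i ∈ FP hK P, (conj (z i t - z' i t) *
            (qd c (fun a => z a t) i - qd c (fun a => z' a t) i)).re)
            (∑' i, conj (z i t - z' i t) *
            (qd c (fun a => z a t) i - qd c (fun a => z' a t) i)).re
          have h8 : |∑ i ∈ FP hK P, (conj (z i t - z' i t) *
              (qd c (fun a => z a t) i - qd c (fun a => z' a t) i)).re -
              (∑' i, conj (z i t - z' i t) *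
              (qd c (fun a => z a t) i - qd c (fun a => z' a t) i)).re| ≤ eps P := e1
          linarith
        show ‖2 * _‖ ≤ _
        rw [norm_mul, Real.norm_eq_abs, Real.norm_eq_abs, abs_of_pos (by norm_num : (0:ℝ) < 2)]
        linarith)
      T' ⟨hT0, le_rfl⟩
    rwa [sub_zero] at h1
  have hlim : Tendsto (fun P => gronwallBound 0 (2 * L) (2 * L * del P + 2 * eps P) T') atTop
      (𝓝 0) := by
    have h1 : Tendsto (fun P => 2 * L * del P + 2 * eps P) atTop (𝓝 0) := by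
      have := (hdel.const_mul (2 * L)).add (heps.const_mul 2)
      simpa using this
    have h2 := ((gronwallBound_continuous_ε 0 (2 * L) T').tendsto 0).comp h1
    rw [gronwallBound_ε0_δ0] at h2
    exact h2
  have h3 : Tendsto (fun P => f P T') atTop (𝓝 0) :=
    squeeze_zero_norm key hlim
  have hsq : ∀ t ∈ Icc 0 T', Summable (fun i => ‖z i t - z' i t‖ ^ 2) := by
    intro t ht
    obtain ⟨d1, d2⟩ := hd t ht
    exact Summable.of_nonneg_of_le (fun i => sq_nonneg _) (w_sq_le H d1 d2) hdl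
  have h4 : Tendsto (fun P => f P T') atTop
      (𝓝 (∑' i, ‖z i T' - z' i T'‖ ^ 2 - ∑' i, ‖z i 0 - z' i 0‖ ^ 2)) :=
    ((hsq T' ⟨hT0, le_rfl⟩).hasSum.comp (FP_tendsto hK)).sub
      ((hsq 0 ⟨le_rfl, hT0⟩).hasSum.comp (FP_tendsto hK))
  have h5 := tendsto_nhds_unique h3 h4
  linarith

/-- uniform decay of two solutions -/
lemma two_dec {C : ℝ} {p q D : ℕ} (H : Hyp bar c N C p q D)
    {z z' : I → ℝ → ℂ} (hz : KSol S lv bar σ c N T z) (hz' : KSol S lv bar σ c N T z')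
    (T' : ℝ) (hT : T' < T) :
    ∃ M, ∀ t ∈ Icc 0 T', Dec N p q M (fun a => z a t) ∧ Dec N p q M (fun a => z' a t) := by
  obtain ⟨M1, h1⟩ := hz.reg (p + q) T' hT
  obtain ⟨M2, h2⟩ := hz'.reg (p + q) T' hT
  exact ⟨max M1 M2, fun t ht => ⟨fun i => (h1 t ht i).trans (le_max_left _ _),
    fun i => (h2 t ht i).trans (le_max_right _ _)⟩⟩

end Time

/-- **EM-UNI** -/
theorem t_UNI : S_UNI := by
  intro I lv bar σ c S α N T hK hW
  obtain ⟨C, p, q, D, H⟩ := hyp hK hW
  constructor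
  · intro z hz t ht
    obtain ⟨M, hM⟩ := two_dec H hz (zero_sol (S := S) (lv := lv) (bar := bar) (σ := σ)) t ht.2
    have h1 := main_est hK H hz (zero_sol (S := S) (lv := lv) (bar := bar) (σ := σ))
      0 t M ht.2 ht.1 le_rfl hM
      (by
        intro r hr
        rw [zero_mul]
        have h2 := anti_zero H (hM r hr).1 (hM r hr).1
          (fun i => hz.real i r ⟨hr.1, lt_of_le_of_lt hr.2 ht.2⟩)
        have h3 : ∀ i, qd c (fun _ : I => (0 : ℂ)) i = 0 := by
          intro i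
          simp [qd]
        have h4 : (fun i => conj (z i r - 0) * (qd c (fun a => z a r) i
            - qd c (fun _ : I => (0 : ℂ)) i)) = fun i =>
            conj ((fun a => z a r) i) * qd2 c (fun a => z a r) (fun a => z a r) i := by
          ext i
          rw [h3, sub_zero, sub_zero]
          rfl
        rw [h4, h2, abs_zero])
      (fun P => zero_mul _)
    simp only [sub_zero] at h1
    exact ⟨sq_summ H (hM t ⟨ht.1, le_rfl⟩).1, h1⟩
  · intro z z' hz hz' h0 i t ht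
    obtain ⟨M, hM⟩ := two_dec H hz hz' t ht.2
    have hM0 : 0 ≤ M := M_nonneg H (hM t ⟨ht.1, le_rfl⟩).1 i
    have hS : 0 ≤ ∑' i, (N i ^ q)⁻¹ := tsum_nonneg fun i => (s_pos H i).le
    have h1 := main_est hK H hz hz' (C * D * M * ∑' i, (N i ^ q)⁻¹) t M ht.2 ht.1
      (mul_nonneg (mul_nonneg (mul_nonneg H.C0 (Nat.cast_nonneg _)) hM0) hS) hM
      (fun r hr => diff_le H (hM r hr).1 (hM r hr).2
        (fun i => hz.real i r ⟨hr.1, lt_of_le_of_lt hr.2 ht.2⟩)
        (fun i => hz'.real i r ⟨hr.1, lt_of_le_of_lt hr.2 ht.2⟩))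
      (by
        intro P
        rw [Finset.sum_eq_zero, mul_zero]
        intro i _
        rw [h0 i, sub_self, norm_zero]
        norm_num)
    have h1' : ∑' i, ‖z i t - z' i t‖ ^ 2 = 0 := by
      rw [h1]
      have : (fun i => ‖z i 0 - z' i 0‖ ^ 2) = fun _ => (0 : ℝ) := by
        ext i
        rw [h0 i, sub_self, norm_zero]
        norm_num
      rw [this, tsum_zero]
    have hsq : Summable (fun i => ‖z i t - z' i t‖ ^ 2) :=
      Summable.of_nonneg_of_le (fun i => sq_nonneg _)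
        (w_sq_le H (hM t ⟨ht.1, le_rfl⟩).1 (hM t ⟨ht.1, le_rfl⟩).2)
        (H.summ.mul_left (4 * M ^ 2))
    have h2 := (hasSum_zero_iff_of_nonneg (fun i => sq_nonneg _)).1 (h1' ▸ hsq.hasSum)
    have h3 := congrFun h2 i
    have h4 : ‖z i t - z' i t‖ ^ 2 = 0 := h3
    have h5 : ‖z i t - z' i t‖ = 0 := by
      simpa using h4
    exact sub_eq_zero.1 (norm_eq_zero.1 h5)

end Pool.Agent.Y154.EM.UNI
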